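import Pool.Agent.helper15.XE.SpecC

/-!
Row DYN of project XE (MP_5628fe_nt): summation over blocks.
-/

set_option autoImplicit false

namespace Pool.Agent.XE

open Finset ArithmeticFunction
open Pool.Agent.EC (tri TL wt mt Adm edg mnf tI tII tyI cvl KK yN UN TUP TLe GdT)
open Pool.Agent.CH (rgh Mo ClP ClB)
open GD (kp ks)

private theorem DYN_pow : ((9 / 10 : ℝ)) ^ (2 / 3 : ℝ) ≤ 94 / 100 := by
  apply le_of_pow_le_pow_left₀ (n := 3) (by norm_num) (by norm_num)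
  rw [← Real.rpow_natCast, ← Real.rpow_mul (by norm_num)]
  rw [show (2 / 3 : ℝ) * ((3 : ℕ) : ℝ) = ((2 : ℕ) : ℝ) by norm_num, Real.rpow_natCast]
  norm_num

theorem DYN : DYN_stmt := by
  classical
  intro S N₀ h
  set C : ℝ := max 16 ((2 * N₀ + 24 : ℕ) : ℝ) with hC
  have hC16 : (16 : ℝ) ≤ C := le_max_left _ _
  refine ⟨C, ?_⟩
  intro N
  induction N using Nat.strong_induction_on with
  | _ N ih =>
    intro hN
    have hN1 : (1 : ℝ) ≤ N := by exact_mod_cast hN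
    have hp1 : (1 : ℝ) ≤ (N : ℝ) ^ (2 / 3 : ℝ) := Real.one_le_rpow hN1 (by norm_num)
    rcases Nat.lt_or_ge N (2 * N₀ + 24) with hs | hl
    · have h1 : #((Icc 1 N).filter S) ≤ N := by
        refine (card_filter_le _ _).trans ?_
        rw [Nat.card_Icc]; omega
      have h2 : (#((Icc 1 N).filter S) : ℝ) ≤ C := by
        refine le_trans ?_ (le_max_right _ _)
        exact_mod_cast h1.trans hs.le
      calc (#((Icc 1 N).filter S) : ℝ) ≤ C * 1 := by linarith
        _ ≤ C * (N : ℝ) ^ (2 / 3 : ℝ) := mul_le_mul_of_nonneg_left hp1 (by linarith)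
    · set M := (4 * N + 12) / 5 with hM
      have h5 : 5 * M ≤ 4 * N + 12 := Nat.mul_div_le _ _
      have h6 : 4 * N + 8 ≤ 5 * M := by omega
      have h7 : M - 1 < N := by omega
      have h8 : 1 ≤ M - 1 := by omega
      have h9 : N₀ ≤ M := by omega
      have hsub : (Icc 1 N).filter S ⊆ (Icc 1 (M - 1)).filter S ∪ (Ico M (5 * M / 4)).filter S := by
        intro n hn
        rw [mem_filter, mem_Icc] at hn
        rw [mem_union, mem_filter, mem_filter, mem_Icc, mem_Ico]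
        rcases Nat.lt_or_ge n M with h10 | h10
        · exact Or.inl ⟨⟨hn.1.1, by omega⟩, hn.2⟩
        · refine Or.inr ⟨⟨h10, ?_⟩, hn.2⟩
          have : N + 1 ≤ 5 * M / 4 := by
            rw [Nat.le_div_iff_mul_le (by norm_num)]
            omega
          omega
      have hcard : (#((Icc 1 N).filter S) : ℝ) ≤ #((Icc 1 (M - 1)).filter S) + #((Ico M (5 * M / 4)).filter S) := by
        exact_mod_cast (card_le_card hsub).trans (card_union_le _ _)
      have g1 := ih (M - 1) h7 h8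
      have g2 := h M h9
      have hMN : (M : ℝ) ≤ 9 / 10 * N := by
        have : (5 * M : ℝ) ≤ 4 * N + 12 := by exact_mod_cast h5
        have h24 : (24 : ℝ) ≤ N := by exact_mod_cast (by omega : 24 ≤ N)
        linarith
      have hM1 : ((M - 1 : ℕ) : ℝ) ≤ M := by exact_mod_cast Nat.sub_le _ _
      have g3 : (M : ℝ) ^ (2 / 3 : ℝ) ≤ 94 / 100 * (N : ℝ) ^ (2 / 3 : ℝ) := by
        calc (M : ℝ) ^ (2 / 3 : ℝ) ≤ (9 / 10 * (N : ℝ)) ^ (2 / 3 : ℝ) :=
              Real.rpow_le_rpow (Nat.cast_nonneg _) hMN (by norm_num)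
          _ = (9 / 10 : ℝ) ^ (2 / 3 : ℝ) * (N : ℝ) ^ (2 / 3 : ℝ) :=
              Real.mul_rpow (by norm_num) (Nat.cast_nonneg _)
          _ ≤ 94 / 100 * (N : ℝ) ^ (2 / 3 : ℝ) := mul_le_mul_of_nonneg_right DYN_pow (by linarith)
      have g4 : ((M - 1 : ℕ) : ℝ) ^ (2 / 3 : ℝ) ≤ (M : ℝ) ^ (2 / 3 : ℝ) :=
        Real.rpow_le_rpow (Nat.cast_nonneg _) hM1 (by norm_num)
      have g5 : C * ((M - 1 : ℕ) : ℝ) ^ (2 / 3 : ℝ) ≤ C * (94 / 100 * (N : ℝ) ^ (2 / 3 : ℝ)) :=
        mul_le_mul_of_nonneg_left (g4.trans g3) (by linarith)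
      have g6 : 0 ≤ (C - 16) * (N : ℝ) ^ (2 / 3 : ℝ) := mul_nonneg (by linarith) (by linarith)
      nlinarith

end Pool.Agent.XE
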